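import Pool.Agent.H80.JE.Targets

set_option autoImplicit false

namespace Pool.Agent.H86.JE

open Finset Filter Topology Pool.Agent.H80.JD Pool.Agent.H80.JE

theorem asy2 : T_ASY2 := by
  intro α c hα hc
  have h0 : Tendsto (fun n : ℕ => (322560 / (c ^ 8 * α ^ 2)) * ((n : ℝ))⁻¹) atTop (𝓝 0) := by
    have := (tendsto_inv_atTop_nhds_zero_nat (𝕜 := ℝ)).const_mul (322560 / (c ^ 8 * α ^ 2))
    simpa using this
  refine squeeze_zero' ?_ ?_ h0
  · exact Eventually.of_forall (fun n => by positivity)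
  · obtain ⟨N, hN⟩ := exists_nat_ge (2 / α)
    filter_upwards [eventually_ge_atTop (max N 1)] with n hn
    have hn1 : 1 ≤ n := le_trans (le_max_right _ _) hn
    have hnN : N ≤ n := le_trans (le_max_left _ _) hn
    have hn1' : (1 : ℝ) ≤ n := by exact_mod_cast hn1
    have hn0 : (0 : ℝ) < n := by linarith
    have h2 : 2 ≤ α * n := by
      have : 2 / α ≤ (n : ℝ) := le_trans hN (by exact_mod_cast hnN)
      have h3 := (div_le_iff₀ hα).1 this
      linarith [mul_comm (n : ℝ) α]
    set m : ℝ := ((⌊α * n⌋₊ : ℕ) : ℝ) with hm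
    have hm1 : α * n / 2 ≤ m := by
      have : α * n < m + 1 := by rw [hm]; exact Nat.lt_floor_add_one _
      linarith
    have hm0 : 0 ≤ m := by linarith
    set q : ℝ := Real.sqrt (Real.sqrt m) with hq
    have hq0 : 0 ≤ q := Real.sqrt_nonneg _
    have hq4 : q ^ 4 = m := by
      have h1 : q ^ 2 = Real.sqrt m := Real.sq_sqrt (Real.sqrt_nonneg _)
      have h3 : (Real.sqrt m) ^ 2 = m := Real.sq_sqrt hm0
      calc q ^ 4 = (q ^ 2) ^ 2 := by ring
        _ = m := by rw [h1, h3]
    have hexp := Real.pow_div_factorial_le_exp (c * q) (by positivity) 8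
    have hfac : ((Nat.factorial 8 : ℕ) : ℝ) = 40320 := by norm_num [Nat.factorial]
    rw [hfac] at hexp
    have hc8 : 0 < c ^ 8 := by positivity
    have hE2 : c ^ 8 * α ^ 2 * n ^ 2 / 161280 ≤ Real.exp (c * q) := by
      refine le_trans ?_ hexp
      have h5 : (c * q) ^ 8 = c ^ 8 * m ^ 2 := by
        calc (c * q) ^ 8 = c ^ 8 * (q ^ 4) ^ 2 := by ring
          _ = _ := by rw [hq4]
      have h6 : (α * n / 2) ^ 2 ≤ m ^ 2 := by
        apply pow_le_pow_left₀ _ hm1
        positivity
      rw [h5, div_le_div_iff₀ (by norm_num) (by norm_num)]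
      have h7 := mul_le_mul_of_nonneg_left h6 hc8.le
      nlinarith
    have hpos : (0 : ℝ) < c ^ 8 * α ^ 2 * n ^ 2 / 161280 := by positivity
    rw [Real.exp_neg]
    calc ((n : ℝ) + 1) * (Real.exp (c * q))⁻¹
        ≤ (2 * n) * (c ^ 8 * α ^ 2 * (n : ℝ) ^ 2 / 161280)⁻¹ := by
          apply mul_le_mul
          · linarith
          · exact inv_anti₀ hpos hE2
          · positivity
          · positivity
      _ = 322560 / (c ^ 8 * α ^ 2) * (n : ℝ)⁻¹ := by
          field_simp
          norm_num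

end Pool.Agent.H86.JE
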