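import Pool.Agent.H80.JE.Targets

set_option autoImplicit false

namespace Pool.Agent.H86.JE

open Finset Filter Topology Pool.Agent.H80.JD Pool.Agent.H80.JE

theorem du_abs (v : ℝ) (b : Bool) : v * ((sg b : ℤ) : ℝ) ≤ |v| := by
  cases b
  · simp only [sg, Bool.false_eq_true, if_false]
    push_cast
    linarith [le_abs_self v]
  · simp only [sg, if_true]
    push_cast
    linarith [neg_abs_le v]

theorem du_ne {a b : Bool} (h : a ≠ b) : sg a + sg b = 0 := by
  cases a <;> cases b <;> simp_all [sg]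

theorem du_sum {m n : ℕ} (κ : ℝ) (G : Fin m → Fin n → Bool) (x : Fin n → Bool) (h : ABP κ G x) :
    m * (κ * Real.sqrt n) ≤
      ∑ i, ((csum (fun j => G j i) : ℤ) : ℝ) * ((sg (x i) : ℤ) : ℝ) := by
  have h1 : ∑ i, ((csum (fun j => G j i) : ℤ) : ℝ) * ((sg (x i) : ℤ) : ℝ) =
      ∑ j, ((ip (G j) x : ℤ) : ℝ) := by
    simp only [csum, ip]
    push_cast
    rw [Finset.sum_comm]
    refine Finset.sum_congr rfl fun i _ => ?_
    rw [Finset.sum_mul]
  rw [h1]
  calc (m : ℝ) * (κ * Real.sqrt n) = ∑ _j : Fin m, κ * Real.sqrt n := by simp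
    _ ≤ ∑ j, ((ip (G j) x : ℤ) : ℝ) := Finset.sum_le_sum fun j _ => h j

theorem du : T_DU := by
  intro m n κ τ G x y hτ hx hy
  have h1 := du_sum κ G x hx
  have h2 := du_sum κ G y hy
  have h3 : ∀ i, (((csum (fun j => G j i) : ℤ) : ℝ) * ((sg (x i) : ℤ) : ℝ) +
      ((csum (fun j => G j i) : ℤ) : ℝ) * ((sg (y i) : ℤ) : ℝ)) / 2 ≤
      max (|((csum (fun j => G j i) : ℤ) : ℝ)| - τ * Real.sqrt m) 0 +
        τ * Real.sqrt m * (if x i = y i then 1 else 0) := by
    intro i
    by_cases hxy : x i = y i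
    · rw [if_pos hxy, hxy]
      have h4 := du_abs ((csum (fun j => G j i) : ℤ) : ℝ) (y i)
      have h5 := le_max_left (|((csum (fun j => G j i) : ℤ) : ℝ)| - τ * Real.sqrt m) 0
      linarith
    · rw [if_neg hxy]
      have h4 : ((sg (x i) : ℤ) : ℝ) + ((sg (y i) : ℤ) : ℝ) = 0 := by
        exact_mod_cast du_ne hxy
      have h5 := le_max_right (|((csum (fun j => G j i) : ℤ) : ℝ)| - τ * Real.sqrt m) 0
      have h6 : ((csum (fun j => G j i) : ℤ) : ℝ) * ((sg (x i) : ℤ) : ℝ) +
          ((csum (fun j => G j i) : ℤ) : ℝ) * ((sg (y i) : ℤ) : ℝ) = 0 := by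
        rw [← mul_add, h4, mul_zero]
      rw [h6]
      linarith
  have h7 : (∑ i, (if x i = y i then (1 : ℝ) else 0)) = n - hammingDist x y := by
    have h8 : (∑ i, (if x i = y i then (1 : ℝ) else 0)) +
        ∑ i, (if x i ≠ y i then (1 : ℝ) else 0) = n := by
      rw [← Finset.sum_add_distrib]
      have : ∀ i, (if x i = y i then (1 : ℝ) else 0) + (if x i ≠ y i then (1 : ℝ) else 0) = 1 := by
        intro i
        by_cases hxy : x i = y i <;> simp [hxy]
      rw [Finset.sum_congr rfl fun i _ => this i]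
      simp
    have h9 : ∑ i, (if x i ≠ y i then (1 : ℝ) else 0) = hammingDist x y := by
      rw [hammingDist, Finset.card_filter]
      push_cast
      rfl
    linarith
  have h10 := Finset.sum_le_sum fun i (_ : i ∈ (univ : Finset (Fin n))) => h3 i
  rw [Finset.sum_add_distrib, ← Finset.mul_sum, h7, ← Finset.sum_div,
    Finset.sum_add_distrib] at h10
  linarith

end Pool.Agent.H86.JE
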